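import Mathlib

namespace Pool.Agent.Results.MP_52c3fe_co.Counter

open Finset

/-- Walsh transform. -/
def W {m : ℕ} (f : (Fin m → ZMod 2) → ZMod 2) (u : Fin m → ZMod 2) : ℤ :=
  ∑ x : Fin m → ZMod 2, (-1) ^ (f x + ∑ i, u i * x i).val

/-- `f` is bent with dual `fs`. -/
def BentWithDual {m : ℕ} (f fs : (Fin m → ZMod 2) → ZMod 2) : Prop :=
  ∀ u, W f u = 2 ^ (m / 2) * (-1) ^ (fs u).val

abbrev Z := ZMod 2

def gp (a b c d e f i j : Z) : Z := a * e + b * f + c * i + d * j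
def hp (a b c d e f i j : Z) : Z :=
  a * f + b * (e + f) + c * j + d * (i + j) + (a * e + b * f) * (1 + i) * (1 + j) +
    (c * i + d * j) * (1 + e) * (1 + f)
def hs (a b c d e f i j : Z) : Z :=
  e * (a + b) + f * a + i * (c + d) + j * c + (a * e + b * f) * (1 + c) * (1 + d) +
    (c * i + d * j) * (1 + a) * (1 + b)

def lift (p : Z → Z → Z → Z → Z → Z → Z → Z → Z) (v : Fin 8 → Z) : Z :=
  p (v 0) (v 1) (v 2) (v 3) (v 4) (v 5) (v 6) (v 7)

def E8 : Z × Z × Z × Z × Z × Z × Z × Z ≃ (Fin 8 → Z) where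
  toFun p := ![p.1, p.2.1, p.2.2.1, p.2.2.2.1, p.2.2.2.2.1, p.2.2.2.2.2.1, p.2.2.2.2.2.2.1,
    p.2.2.2.2.2.2.2]
  invFun v := (v 0, v 1, v 2, v 3, v 4, v 5, v 6, v 7)
  left_inv _ := rfl
  right_inv v := by ext i; fin_cases i <;> rfl

def sg (a : Z) : ℤ := if a = 0 then 1 else -1

lemma sg_eq : ∀ a : Z, (-1 : ℤ) ^ a.val = sg a := by decide

def s2 (F : Z → ℤ) : ℤ := F 0 + F 1

lemma s2_eq (F : Z → ℤ) : ∑ a, F a = s2 F := Fin.sum_univ_two F

lemma W_lift (p : Z → Z → Z → Z → Z → Z → Z → Z → Z) (u : Fin 8 → Z) :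
    W (lift p) u = s2 fun e => s2 fun f => s2 fun i => s2 fun j =>
      s2 fun a => s2 fun b => s2 fun c => s2 fun d =>
      sg (p a b c d e f i j + (u 0 * a + u 1 * b + u 2 * c + u 3 * d + u 4 * e + u 5 * f +
        u 6 * i + u 7 * j)) := by
  unfold W
  rw [← E8.sum_comp]
  simp only [Fintype.sum_prod_type, sg_eq, Fin.sum_univ_eight, s2_eq]
  simp only [s2, lift, E8, Equiv.coe_fn_mk, Matrix.cons_val]
  ring

lemma Wg : ∀ u0 u1 u2 u3 u4 u5 u6 u7 : Z, (s2 fun e => s2 fun f => s2 fun i => s2 fun j =>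
      s2 fun a => s2 fun b => s2 fun c => s2 fun d =>
      sg (gp a b c d e f i j + (u0 * a + u1 * b + u2 * c + u3 * d + u4 * e + u5 * f +
        u6 * i + u7 * j))) = 16 * sg (gp u0 u1 u2 u3 u4 u5 u6 u7) := by decide +kernel

lemma Wh : ∀ u0 u1 u2 u3 u4 u5 u6 u7 : Z, (s2 fun e => s2 fun f => s2 fun i => s2 fun j =>
      s2 fun a => s2 fun b => s2 fun c => s2 fun d =>
      sg (hp a b c d e f i j + (u0 * a + u1 * b + u2 * c + u3 * d + u4 * e + u5 * f +
        u6 * i + u7 * j))) = 16 * sg (hs u0 u1 u2 u3 u4 u5 u6 u7) := by decide +kernel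

lemma Ws : ∀ u0 u1 u2 u3 u4 u5 u6 u7 : Z, (s2 fun e => s2 fun f => s2 fun i => s2 fun j =>
      s2 fun a => s2 fun b => s2 fun c => s2 fun d =>
      sg (gp a b c d e f i j + hp a b c d e f i j + (u0 * a + u1 * b + u2 * c + u3 * d + u4 * e +
        u5 * f + u6 * i + u7 * j))) =
      16 * sg (gp u0 u1 u2 u3 u4 u5 u6 u7 + hs u0 u1 u2 u3 u4 u5 u6 u7) := by decide +kernel

def T1 : Fin 16 → Fin 8 → Z :=
  ![![0,0,0,0,0,0,0,0], ![1,0,0,0,0,0,0,0], ![0,0,0,0,1,0,0,0], ![1,0,0,0,1,0,0,0],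
    ![0,0,0,0,0,0,1,0], ![1,0,0,0,0,0,1,0], ![0,0,0,0,1,0,1,0], ![1,0,0,0,1,0,1,0],
    ![0,0,0,0,0,0,0,1], ![1,0,0,0,0,0,0,1], ![0,0,0,0,1,0,0,1], ![1,0,0,0,1,0,0,1],
    ![0,0,0,0,0,0,1,1], ![1,0,0,0,0,0,1,1], ![0,0,0,0,1,0,1,1], ![1,0,0,0,1,0,1,1]]

def T2 : Fin 7 → Fin 8 → Z :=
  ![![0,0,0,0,0,0,0,0], ![0,0,0,0,0,0,1,0], ![0,0,0,0,0,0,0,1], ![0,0,0,0,0,0,1,1],
    ![0,0,0,0,1,0,0,0], ![0,0,0,0,0,1,0,0], ![0,0,0,0,1,1,0,0]]

lemma c1 : ∀ p : Z × Z × Z × Z × Z × Z × Z × Z, ∑ a, lift hp (T1 a + E8 p) = 1 := by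
  decide +kernel
lemma c2 : ∀ p : Z × Z × Z × Z × Z × Z × Z × Z,
    ∑ a, lift hp (T2 a + E8 p) = lift gp (E8 p) + lift hp (E8 p) := by
  decide +kernel
lemma c3 : ∀ p : Z × Z × Z × Z × Z × Z × Z × Z,
    ∑ a, (lift gp (E8 p) + lift hp (T1 a + E8 p) + (lift gp (T1 a) + lift hp (T1 a))) = 0 := by
  decide +kernel

theorem result :
    ¬ ∀ (m : ℕ), 0 < m → Even m → ∀ g h gs hs : (Fin m → ZMod 2) → ZMod 2,
      BentWithDual g gs → BentWithDual h hs → BentWithDual (g + h) (gs + hs) →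
      (Matrix.of fun b x : Fin m → ZMod 2 => g b + h (x + b) + (g + h) x).rank =
        (Matrix.of fun x y : Fin m → ZMod 2 => h (x + y)).rank := by
  intro H
  have key := H 8 (by norm_num) (by decide) (lift gp) (lift hp) (lift gp) (lift hs)
    (fun u => by rw [W_lift, Wg, sg_eq]; rfl) (fun u => by rw [W_lift, Wh, sg_eq]; rfl)
    (fun u => by
      have := W_lift (fun a b c d e f i j => gp a b c d e f i j + hp a b c d e f i j) u
      rw [Ws] at this
      rw [sg_eq]; exact this)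
  obtain ⟨M, hM⟩ : ∃ M, M = (Matrix.of fun b x : Fin 8 → ZMod 2 =>
    lift gp b + lift hp (x + b) + (lift gp + lift hp) x) := ⟨_, rfl⟩
  obtain ⟨N, hN⟩ : ∃ N, N = (Matrix.of fun x y : Fin 8 → ZMod 2 => lift hp (x + y)) := ⟨_, rfl⟩
  rw [← hM, ← hN] at key
  have d1 : ∀ x, ∑ a, lift hp (T1 a + x) = 1 := fun x => by simpa using c1 (E8.symm x)
  have d2 : ∀ x, ∑ a, lift hp (T2 a + x) = lift gp x + lift hp x := fun x => by
    simpa using c2 (E8.symm x)
  have d3 : ∀ x, ∑ a, (lift gp x + lift hp (T1 a + x) + (lift gp (T1 a) + lift hp (T1 a))) = 0 :=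
    fun x => by simpa using c3 (E8.symm x)
  have hlt : LinearMap.ker N.mulVecLin < LinearMap.ker M.mulVecLin := by
    refine lt_of_le_of_ne (fun y hy => ?_) (fun e => ?_)
    · have hy' : ∀ a, ∑ x, lift hp (a + x) * y x = 0 := fun a => by
        have := congrFun (LinearMap.mem_ker.1 hy) a
        simpa [hN, Matrix.mulVec, dotProduct] using this
      have s1 : ∑ x, y x = 0 := by
        calc ∑ x, y x = ∑ x, (∑ a, lift hp (T1 a + x)) * y x := by simp [d1]
          _ = ∑ a, ∑ x, lift hp (T1 a + x) * y x := by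
              simp only [sum_mul]; exact sum_comm
          _ = 0 := by simp [hy']
      have s2 : ∑ x, (lift gp x + lift hp x) * y x = 0 := by
        calc _ = ∑ x, (∑ a, lift hp (T2 a + x)) * y x := by simp only [d2]
          _ = ∑ a, ∑ x, lift hp (T2 a + x) * y x := by
              simp only [sum_mul]; exact sum_comm
          _ = 0 := by simp [hy']
      rw [LinearMap.mem_ker]
      ext b
      have s3 := hy' b
      simp only [hM, Matrix.mulVecLin_apply, Matrix.mulVec, dotProduct, Matrix.of_apply,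
        Pi.add_apply, Pi.zero_apply]
      simp only [add_comm b] at s3
      simp only [add_mul (_ + _) (lift gp _ + lift hp _), add_mul (lift gp b), sum_add_distrib,
        ← mul_sum, s1, s2, s3]
      simp
    · have m1 : (∑ a, Pi.single (T1 a) (1 : Z)) ∈ LinearMap.ker M.mulVecLin := by
        rw [LinearMap.mem_ker, map_sum]
        ext b
        simp only [Matrix.mulVecLin_apply, Matrix.mulVec_single_one, Finset.sum_apply, hM,
          Matrix.col_apply, Matrix.of_apply, Pi.add_apply, Pi.zero_apply]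
        exact d3 b
      rw [← e, LinearMap.mem_ker, map_sum] at m1
      have := congrFun m1 0
      simp only [Matrix.mulVecLin_apply, Matrix.mulVec_single_one, Finset.sum_apply, hN,
        Matrix.col_apply, Matrix.of_apply, Pi.zero_apply, add_comm (0 : Fin 8 → Z), d1] at this
      exact one_ne_zero this
  have r1 := LinearMap.finrank_range_add_finrank_ker M.mulVecLin
  have r2 := LinearMap.finrank_range_add_finrank_ker N.mulVecLin
  have r3 := Submodule.finrank_lt_finrank_of_lt hlt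
  have key' : Module.finrank Z (LinearMap.range M.mulVecLin) =
      Module.finrank Z (LinearMap.range N.mulVecLin) := key
  omega

end Pool.Agent.Results.MP_52c3fe_co.Counter
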